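import Pool.Agent.Q229.MW.Base
import Pool.Agent.H612.CollectPoly

/-!
# Project MW, job M2: the canonical form of a formula is computed in polynomial time
-/

set_option autoImplicit false

namespace Pool.Agent.Q149.MW

open Pool.Agent.NPC Pool.Agent.Q229.MW

theorem poly_varList : NPC.Poly varList :=
  NPC.H612.poly_dedup (NPC.Poly.map (F := fun _ (l : ℕ × Bool) => l.1) (NPC.Poly.flatten NPC.Poly.id)
    (NPC.Poly.fst (NPC.Poly.snd NPC.Poly.id)))

/-- **MW-M2.** -/
theorem M2 : NPC.Poly canon := by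
  have h1 : NPC.Poly (fun p : (CNF × List (ℕ × Bool)) × (ℕ × Bool) =>
      ((varList p.1.1).idxOf p.2.1, p.2.2)) :=
    NPC.Poly.pair (NPC.H612.poly_idxOf (poly_varList.comp (NPC.Poly.fst (NPC.Poly.fst NPC.Poly.id)))
      (NPC.Poly.fst (NPC.Poly.snd NPC.Poly.id))) (NPC.Poly.snd (NPC.Poly.snd NPC.Poly.id))
  have h2 : NPC.Poly (fun p : CNF × List (ℕ × Bool) =>
      p.2.map fun l => ((varList p.1).idxOf l.1, l.2)) :=
    NPC.Poly.map (F := fun (p : CNF × List (ℕ × Bool)) (l : ℕ × Bool) =>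
      ((varList p.1).idxOf l.1, l.2)) (NPC.Poly.snd NPC.Poly.id) h1
  exact NPC.H612.poly_dedup (NPC.Poly.map (F := fun (φ : CNF) (C : List (ℕ × Bool)) =>
    C.map fun l => ((varList φ).idxOf l.1, l.2)) NPC.Poly.id h2)

end Pool.Agent.Q149.MW
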