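import Pool.Agent.Q229.MW.Base

/-!
# Project MW, job N1: satisfiability as a clique problem on a universal list of nodes
-/

set_option autoImplicit false

namespace Pool.Agent.Q149.MW

open Pool.Agent.NPC Pool.Agent.Q229.MW Finset

/-- the variables of a block -/
def U (r s N : ℕ) (j : Fin r → Fin s) : Finset ℕ :=
  (range N).filter (fun v => ∃ i : Fin r, v % s = (j i : ℕ))

theorem mem_U {r s N : ℕ} {j : Fin r → Fin s} {v : ℕ} :
    v ∈ U r s N j ↔ v < N ∧ ∃ i : Fin r, v % s = (j i : ℕ) := by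
  unfold U
  rw [mem_filter, mem_range]

theorem card_class (s N c : ℕ) (_ : 1 ≤ s) : ((range N).filter (fun v => v % s = c)).card ≤ N / s + 1 := by
  rw [← card_range (N / s + 1)]
  apply card_le_card_of_injOn (fun v => v / s)
  · intro v hv
    rw [mem_coe, mem_filter, mem_range] at hv
    rw [mem_coe, mem_range]
    exact Nat.lt_succ_of_le (Nat.div_le_div_right hv.1.le)
  · intro v hv w hw h
    rw [mem_coe, mem_filter] at hv hw
    have h' : v / s = w / s := h
    have h1 := Nat.div_add_mod v s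
    have h2 := Nat.div_add_mod w s
    rw [hv.2, h'] at h1
    rw [hw.2] at h2
    exact h1.symm.trans h2

theorem card_U (r s N : ℕ) (hs : 1 ≤ s) (j : Fin r → Fin s) : (U r s N j).card ≤ r * (N / s + 1) := by
  have h1 : U r s N j ⊆ (univ : Finset (Fin r)).biUnion
      (fun i => (range N).filter (fun v => v % s = (j i : ℕ))) := by
    intro v hv
    rw [mem_U] at hv
    obtain ⟨h1, i, h2⟩ := hv
    rw [mem_biUnion]
    exact ⟨i, mem_univ i, mem_filter.2 ⟨mem_range.2 h1, h2⟩⟩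
  refine (card_le_card h1).trans (card_biUnion_le.trans ?_)
  calc ∑ i : Fin r, ((range N).filter (fun v => v % s = (j i : ℕ))).card
      ≤ ∑ _i : Fin r, (N / s + 1) := sum_le_sum (fun i _ => card_class s N _ hs)
    _ = r * (N / s + 1) := by simp

/-- the nodes: blocks with a set of true variables -/
def NF (r s N : ℕ) : Finset ((Fin r → Fin s) × Finset ℕ) :=
  (univ : Finset (Fin r → Fin s)).biUnion (fun j => (U r s N j).powerset.image (fun T => (j, T)))

theorem mem_NF {r s N : ℕ} {p : (Fin r → Fin s) × Finset ℕ} :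
    p ∈ NF r s N ↔ p.2 ⊆ U r s N p.1 := by
  unfold NF
  rw [mem_biUnion]
  constructor
  · rintro ⟨j, _, h⟩
    rw [mem_image] at h
    obtain ⟨T, hT, rfl⟩ := h
    exact mem_powerset.1 hT
  · intro h
    exact ⟨p.1, mem_univ _, mem_image.2 ⟨p.2, mem_powerset.2 h, rfl⟩⟩

theorem card_NF (r s N : ℕ) (hs : 1 ≤ s) : (NF r s N).card ≤ s ^ r * 2 ^ (r * (N / s + 1)) := by
  unfold NF
  refine card_biUnion_le.trans ?_
  calc ∑ j : Fin r → Fin s, ((U r s N j).powerset.image (fun T => (j, T))).card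
      ≤ ∑ _j : Fin r → Fin s, 2 ^ (r * (N / s + 1)) := by
        apply sum_le_sum
        intro j _
        refine card_image_le.trans ?_
        rw [card_powerset]
        exact Nat.pow_le_pow_right (by norm_num) (card_U r s N hs j)
    _ = s ^ r * 2 ^ (r * (N / s + 1)) := by simp

/-- the partial assignment of a node -/
noncomputable def asg (r s N : ℕ) (p : (Fin r → Fin s) × Finset ℕ) : List (ℕ × Bool) :=
  (U r s N p.1).toList.map (fun v => (v, decide (v ∈ p.2)))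

theorem mem_asg {r s N : ℕ} {p : (Fin r → Fin s) × Finset ℕ} {v : ℕ} {b : Bool} :
    (v, b) ∈ asg r s N p ↔ v ∈ U r s N p.1 ∧ b = decide (v ∈ p.2) := by
  unfold asg
  rw [List.mem_map]
  constructor
  · rintro ⟨w, hw, h⟩
    rw [Prod.mk.injEq] at h
    obtain ⟨rfl, rfl⟩ := h
    exact ⟨mem_toList.1 hw, rfl⟩
  · rintro ⟨h1, h2⟩
    exact ⟨v, mem_toList.2 h1, by rw [h2]⟩

/-- compatibility of two nodes -/
def Cmp (r s N : ℕ) (p q : (Fin r → Fin s) × Finset ℕ) : Prop :=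
  p.1 ≠ q.1 ∧ ∀ v, v ∈ U r s N p.1 → v ∈ U r s N q.1 → (v ∈ p.2 ↔ v ∈ q.2)

theorem Cmp.symm {r s N : ℕ} {p q : (Fin r → Fin s) × Finset ℕ} (h : Cmp r s N p q) :
    Cmp r s N q p := ⟨h.1.symm, fun v h1 h2 => (h.2 v h2 h1).symm⟩

/-- the node with a given label -/
noncomputable def nd (r s N : ℕ) (i : Fin (NF r s N).card) : (Fin r → Fin s) × Finset ℕ :=
  ((NF r s N).equivFin.symm i).1

theorem nd_mem (r s N : ℕ) (i : Fin (NF r s N).card) : nd r s N i ∈ NF r s N :=
  ((NF r s N).equivFin.symm i).2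

theorem nd_inj (r s N : ℕ) : Function.Injective (nd r s N) := by
  intro i i' h
  exact (NF r s N).equivFin.symm.injective (Subtype.ext h)

theorem nd_surj {r s N : ℕ} {p : (Fin r → Fin s) × Finset ℕ} (hp : p ∈ NF r s N) :
    ∃ i, nd r s N i = p := by
  refine ⟨(NF r s N).equivFin ⟨p, hp⟩, ?_⟩
  unfold nd
  rw [Equiv.symm_apply_apply]

/-- the list of the labelled partial assignments -/
noncomputable def LL (r s N : ℕ) : List (ℕ × List (ℕ × Bool)) :=
  List.ofFn (fun i : Fin (NF r s N).card => ((i : ℕ), asg r s N (nd r s N i)))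

open Classical in
/-- the list of the compatible pairs -/
noncomputable def EE (r s N : ℕ) : List (ℕ × ℕ) :=
  (((univ : Finset (Fin (NF r s N).card × Fin (NF r s N).card)).filter
    (fun p => Cmp r s N (nd r s N p.1) (nd r s N p.2))).toList).map (fun p => ((p.1 : ℕ), (p.2 : ℕ)))

theorem mem_LL {r s N : ℕ} {x : ℕ × List (ℕ × Bool)} :
    x ∈ LL r s N ↔ ∃ i : Fin (NF r s N).card, ((i : ℕ), asg r s N (nd r s N i)) = x := by
  unfold LL
  rw [List.mem_ofFn]

theorem mem_EE {r s N : ℕ} {x : ℕ × ℕ} : x ∈ EE r s N ↔ ∃ i i' : Fin (NF r s N).card,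
    Cmp r s N (nd r s N i) (nd r s N i') ∧ ((i : ℕ), (i' : ℕ)) = x := by
  classical
  unfold EE
  rw [List.mem_map]
  constructor
  · rintro ⟨p, hp, h⟩
    rw [mem_toList, mem_filter] at hp
    exact ⟨p.1, p.2, hp.2, h⟩
  · rintro ⟨i, i', h1, h2⟩
    exact ⟨(i, i'), mem_toList.2 (mem_filter.2 ⟨mem_univ _, h1⟩), h2⟩

theorem okNode_iff {φ : CNF} {α : List (ℕ × Bool)} :
    okNode φ α = true ↔ ∀ D ∈ φ, ∃ l ∈ D, (l.1, !l.2) ∉ α := by
  unfold okNode
  rw [List.all_eq_true]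
  refine forall₂_congr (fun D _ => ?_)
  rw [Bool.not_eq_true', List.all_eq_false]
  refine exists_congr (fun l => and_congr_right (fun _ => ?_))
  rw [decide_eq_true_iff]

theorem mem_okLabels {r s N : ℕ} {φ : CNF} {v : ℕ} : v ∈ okLabels φ (LL r s N) ↔
    ∃ i : Fin (NF r s N).card, (i : ℕ) = v ∧ ∀ D ∈ φ, ∃ l ∈ D, (l.1, !l.2) ∉ asg r s N (nd r s N i) := by
  unfold okLabels
  rw [List.mem_map]
  constructor
  · rintro ⟨x, hx, rfl⟩
    rw [List.mem_filter, mem_LL] at hx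
    obtain ⟨⟨i, rfl⟩, h⟩ := hx
    exact ⟨i, rfl, okNode_iff.1 h⟩
  · rintro ⟨i, rfl, h⟩
    exact ⟨((i : ℕ), asg r s N (nd r s N i)), List.mem_filter.2 ⟨mem_LL.2 ⟨i, rfl⟩, okNode_iff.2 h⟩, rfl⟩

theorem sat_clique {r s N : ℕ} {φ : CNF} (h : Sat φ) :
    HasClique (okLabels φ (LL r s N), EE r s N) (s ^ r) := by
  obtain ⟨f, hf⟩ := h
  set T : (Fin r → Fin s) → Finset ℕ := fun j => (U r s N j).filter (fun v => f v = true) with hT
  have hmem : ∀ j, (j, T j) ∈ NF r s N := fun j => mem_NF.2 (filter_subset _ _)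
  choose i hi using fun j => nd_surj (hmem j)
  have hinj : Function.Injective (fun j => (i j : ℕ)) := by
    intro j j' h
    have h1 : i j = i j' := Fin.ext h
    have h2 := congrArg (nd r s N) h1
    rw [hi, hi] at h2
    exact (Prod.mk.inj h2).1
  refine ⟨univ.image (fun j => (i j : ℕ)), ?_, ?_, ?_⟩
  · rw [card_image_of_injective _ hinj]
    simp
  · intro v hv
    rw [mem_image] at hv
    obtain ⟨j, _, rfl⟩ := hv
    rw [mem_okLabels]
    refine ⟨i j, rfl, fun D hD => ?_⟩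
    obtain ⟨l, hl, hfl⟩ := hf D hD
    refine ⟨l, hl, fun hmm => ?_⟩
    rw [hi, mem_asg] at hmm
    obtain ⟨h1, h2⟩ := hmm
    have h3 : l.1 ∈ T j ↔ f l.1 = true := by
      rw [hT, mem_filter]
      exact ⟨fun h => h.2, fun h => ⟨h1, h⟩⟩
    have h4 : decide (l.1 ∈ T j) = decide (f l.1 = true) := decide_eq_decide.2 h3
    have h5 : (!l.2) = decide (l.1 ∈ T j) := h2
    rw [h4, ← hfl] at h5
    cases hb : f l.1 <;> simp [hb] at h5
  · intro u hu v hv huv
    rw [mem_image] at hu hv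
    obtain ⟨j, _, rfl⟩ := hu
    obtain ⟨j', _, rfl⟩ := hv
    left
    rw [mem_EE]
    refine ⟨i j, i j', ?_, rfl⟩
    rw [hi, hi]
    refine ⟨fun h => huv ?_, fun v h1 h2 => ?_⟩
    · have h' : j = j' := h
      rw [h']
    · simp only [hT, mem_filter]
      exact ⟨fun h => ⟨h2, h.2⟩, fun h => ⟨h1, h.2⟩⟩

theorem clique_sat {r s N : ℕ} (hs : 1 ≤ s) {φ : CNF} (hw : Width r φ)
    (hN : ∀ D ∈ φ, ∀ l ∈ D, l.1 < N) (h : HasClique (okLabels φ (LL r s N), EE r s N) (s ^ r)) :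
    Sat φ := by
  obtain ⟨S, hS1, hS2, hS3⟩ := h
  -- every element of `S` is a label
  have hlab : ∀ v ∈ S, ∃ i : Fin (NF r s N).card, (i : ℕ) = v ∧
      ∀ D ∈ φ, ∃ l ∈ D, (l.1, !l.2) ∉ asg r s N (nd r s N i) :=
    fun v hv => mem_okLabels.1 (hS2 v hv)
  have hne : Nonempty (Fin (NF r s N).card) := by
    have h0 : 0 < S.card := by rw [hS1]; positivity
    obtain ⟨v, hv⟩ := card_pos.1 h0
    obtain ⟨i, -⟩ := hlab v hv
    exact ⟨i⟩
  choose! ix hix1 hix2 using hlab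
  have hcmp : ∀ u ∈ S, ∀ v ∈ S, u ≠ v → Cmp r s N (nd r s N (ix u)) (nd r s N (ix v)) := by
    intro u hu v hv huv
    have key : ∀ a ∈ S, ∀ b ∈ S, (a, b) ∈ EE r s N → Cmp r s N (nd r s N (ix a)) (nd r s N (ix b)) := by
      intro a ha b hb hab
      obtain ⟨i, i', h1, h2⟩ := mem_EE.1 hab
      rw [Prod.mk.injEq] at h2
      have e1 : ix a = i := Fin.ext (by rw [hix1 a ha, h2.1])
      have e2 : ix b = i' := Fin.ext (by rw [hix1 b hb, h2.2])
      rw [e1, e2]
      exact h1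
    rcases hS3 u hu v hv huv with h1 | h1
    · exact key u hu v hv h1
    · exact (key v hv u hu h1).symm
  have hinj : Set.InjOn (fun v => (nd r s N (ix v)).1) (S : Set ℕ) := by
    intro u hu v hv h
    by_contra huv
    exact (hcmp u hu v hv huv).1 h
  have himg : S.image (fun v => (nd r s N (ix v)).1) = univ := by
    apply eq_univ_of_card
    rw [card_image_of_injOn hinj, hS1]
    simp
  have hall : ∀ j : Fin r → Fin s, ∃ v ∈ S, (nd r s N (ix v)).1 = j := by
    intro j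
    have : j ∈ S.image (fun v => (nd r s N (ix v)).1) := by rw [himg]; exact mem_univ j
    rw [mem_image] at this
    exact this
  choose w hw1 hw2 using hall
  set T : (Fin r → Fin s) → Finset ℕ := fun j => (nd r s N (ix (w j))).2 with hT
  have hTT : ∀ j j' v, v ∈ U r s N j → v ∈ U r s N j' → (v ∈ T j ↔ v ∈ T j') := by
    intro j j' v h1 h2
    by_cases hjj : j = j'
    · rw [hjj]
    · have hne : w j ≠ w j' := by
        intro h
        apply hjj
        rw [← hw2 j, ← hw2 j', h]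
      have := (hcmp _ (hw1 j) _ (hw1 j') hne).2 v (by rw [hw2]; exact h1) (by rw [hw2]; exact h2)
      exact this
  classical
  refine ⟨fun v => decide (∃ j, v ∈ U r s N j ∧ v ∈ T j), fun D hD => ?_⟩
  have hDl : D.length ≤ r := hw D hD
  -- the block of the clause
  set j : Fin r → Fin s := fun i => if h : (i : ℕ) < D.length then
    ⟨(D[(i : ℕ)]'h).1 % s, Nat.mod_lt _ (by omega)⟩ else ⟨0, by omega⟩ with hj
  have hU : ∀ l ∈ D, l.1 ∈ U r s N j := by
    intro l hl
    rw [mem_U]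
    refine ⟨hN D hD l hl, ?_⟩
    obtain ⟨i, hi, rfl⟩ := List.mem_iff_getElem.1 hl
    refine ⟨⟨i, by omega⟩, ?_⟩
    simp only [hj]
    rw [dif_pos hi]
  obtain ⟨l, hl, hl2⟩ := hix2 (w j) (hw1 j) D hD
  refine ⟨l, hl, ?_⟩
  have h1 : l.1 ∈ U r s N j := hU l hl
  have h2 : ¬ (!l.2) = decide (l.1 ∈ T j) := by
    intro h
    apply hl2
    rw [mem_asg, hw2]
    exact ⟨h1, h⟩
  have h3 : (∃ j', l.1 ∈ U r s N j' ∧ l.1 ∈ T j') ↔ l.1 ∈ T j :=
    ⟨fun ⟨j', g1, g2⟩ => (hTT j' j l.1 g1 h1).1 g2, fun g => ⟨j, h1, g⟩⟩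
  change decide (∃ j', l.1 ∈ U r s N j' ∧ l.1 ∈ T j') = l.2
  rw [decide_eq_decide.2 h3]
  cases hb : l.2 <;> cases hc : decide (l.1 ∈ T j) <;> simp_all

/-- **MW-N1.** -/
theorem N1 (r s N : ℕ) (hs : 1 ≤ s) : ∃ (L : List (ℕ × List (ℕ × Bool))) (E : List (ℕ × ℕ)),
    L.length ≤ s ^ r * 2 ^ (r * (N / s + 1)) ∧ E.length ≤ L.length ^ 2 ∧
    (∀ p ∈ L, p.1 < L.length ∧ p.2.length ≤ N ∧ ∀ l ∈ p.2, l.1 < N) ∧
    (∀ e ∈ E, e.1 < L.length ∧ e.2 < L.length) ∧
    ∀ φ : CNF, Width r φ → (∀ D ∈ φ, ∀ l ∈ D, l.1 < N) →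
      (HasClique (okLabels φ L, E) (s ^ r) ↔ Sat φ) := by
  have hlen : (LL r s N).length = (NF r s N).card := by unfold LL; rw [List.length_ofFn]
  refine ⟨LL r s N, EE r s N, ?_, ?_, ?_, ?_, ?_⟩
  · rw [hlen]
    exact card_NF r s N hs
  · classical
    rw [hlen]
    unfold EE
    rw [List.length_map, length_toList]
    refine (card_filter_le _ _).trans ?_
    rw [card_univ, Fintype.card_prod, Fintype.card_fin, pow_two]
  · intro p hp
    obtain ⟨i, rfl⟩ := mem_LL.1 hp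
    refine ⟨by rw [hlen]; exact i.2, ?_, ?_⟩
    · unfold asg
      rw [List.length_map, length_toList]
      have : U r s N (nd r s N i).1 ⊆ range N := filter_subset _ _
      have := card_le_card this
      rwa [card_range] at this
    · rintro ⟨v, b⟩ hl
      exact (mem_U.1 (mem_asg.1 hl).1).1
  · intro e he
    obtain ⟨i, i', _, rfl⟩ := mem_EE.1 he
    rw [hlen]
    exact ⟨i.2, i'.2⟩
  · intro φ h1 h2
    exact ⟨clique_sat hs h1 h2, sat_clique⟩

end Pool.Agent.Q149.MW
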